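import Pool.Agent.H154Z.VarProof

set_option autoImplicit false

namespace Pool.Agent.Results.MP_2a816b_nt.ACentredEdgeEffect

open Filter Pool.Agent.H154Z.Var

/-- For centred intervals and the average over `1 ≤ x ≤ X`, the ratio of the left side to the
right side of the conjectured asymptotic tends to infinity whenever
`X ^ (1 / 2 + δ) < H < X ^ (1 - δ)`. -/
theorem result (δ : ℝ) (hδ : 0 < δ) (H : ℝ → ℝ)
    (hH : ∀ᶠ X : ℝ in atTop, X ^ (1 / 2 + δ) < H X ∧ H X < X ^ (1 - δ)) :
    Tendsto (fun X => variance X (H X) / mainTerm X (H X)) atTop atTop :=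
  main δ hδ H hH

end Pool.Agent.Results.MP_2a816b_nt.ACentredEdgeEffect
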